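import Pool.Agent.TH159.IA.Defs

/-! Elementary lemmas on `Low`, on `A0` and on the rows of Hahn series. -/

set_option autoImplicit false

namespace Pool.Agent.TH159.IA

open Pool.Agent.TH396.IN

section low
variable {B : Type}

theorem Low.mono [Zero B] {x : HahnSeries ℝ B} {a b : ℝ} (hx : Low x a) (h : b ≤ a) : Low x b :=
  fun c hc => hx c (hc.trans_le h)

theorem low_zero [Zero B] (a : ℝ) : Low (0 : HahnSeries ℝ B) a := fun _ _ => rfl

theorem Low.add [AddCommMonoid B] {x y : HahnSeries ℝ B} {a : ℝ} (hx : Low x a) (hy : Low y a) :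
    Low (x + y) a := by
  intro c hc
  rw [HahnSeries.coeff_add, hx c hc, hy c hc, add_zero]

theorem Low.neg [AddCommGroup B] {x : HahnSeries ℝ B} {a : ℝ} (hx : Low x a) : Low (-x) a := by
  intro c hc
  rw [HahnSeries.coeff_neg, hx c hc, neg_zero]

theorem Low.sub [AddCommGroup B] {x y : HahnSeries ℝ B} {a : ℝ} (hx : Low x a) (hy : Low y a) :
    Low (x - y) a := by
  intro c hc
  rw [HahnSeries.coeff_sub, hx c hc, hy c hc, sub_zero]

theorem Low.sum [AddCommMonoid B] {κ : Type*} {s : Finset κ} {u : κ → HahnSeries ℝ B} {a : ℝ}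
    (h : ∀ i ∈ s, Low (u i) a) : Low (∑ i ∈ s, u i) a := by
  classical
  induction s using Finset.induction_on with
  | empty => simpa using low_zero a
  | insert i s hi ih =>
    rw [Finset.sum_insert hi]
    exact (h i (Finset.mem_insert_self _ _)).add
      (ih fun j hj => h j (Finset.mem_insert_of_mem hj))

theorem Low.mul [NonUnitalNonAssocSemiring B] {x y : HahnSeries ℝ B} {a b : ℝ}
    (hx : Low x a) (hy : Low y b) : Low (x * y) (a + b) := by
  intro c hc
  rw [HahnSeries.coeff_mul]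
  refine Finset.sum_eq_zero fun p hp => ?_
  have hp3 : p.1 + p.2 = c := (Finset.mem_antidiagonal.mp hp).2.2
  rcases lt_or_ge p.1 a with h | h
  · rw [hx _ h, zero_mul]
  · rw [hy _ (by linarith), mul_zero]

theorem Low.coeff_mul [NonUnitalNonAssocSemiring B] {x y : HahnSeries ℝ B} {a b : ℝ}
    (hx : Low x a) (hy : Low y b) : (x * y).coeff (a + b) = x.coeff a * y.coeff b := by
  rw [HahnSeries.coeff_mul]
  rw [Finset.sum_eq_single (a, b)]
  · intro p hp hne
    have hp3 : p.1 + p.2 = a + b := (Finset.mem_antidiagonal.mp hp).2.2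
    rcases lt_trichotomy p.1 a with h | h | h
    · rw [hx _ h, zero_mul]
    · exfalso
      apply hne
      exact Prod.ext h (by linarith)
    · rw [hy _ (by linarith), mul_zero]
  · intro hp
    by_contra hne
    apply hp
    rw [Finset.mem_antidiagonal]
    refine ⟨?_, ?_, rfl⟩
    · rw [HahnSeries.mem_support]
      intro h
      apply hne
      show x.coeff a * y.coeff b = 0
      rw [h, zero_mul]
    · rw [HahnSeries.mem_support]
      intro h
      apply hne
      show x.coeff a * y.coeff b = 0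
      rw [h, mul_zero]

theorem low_one [Semiring B] : Low (1 : HahnSeries ℝ B) 0 := by
  intro c hc
  rw [HahnSeries.coeff_one, if_neg hc.ne]

theorem low_single [Zero B] (a : ℝ) (x : B) : Low (HahnSeries.single a x) a := by
  intro c hc
  rw [HahnSeries.coeff_single_of_ne hc.ne]

theorem Low.pow [Semiring B] {x : HahnSeries ℝ B} {a : ℝ} (hx : Low x a) (n : ℕ) :
    Low (x ^ n) (n * a) ∧ (x ^ n).coeff (n * a) = x.coeff a ^ n := by
  induction n with
  | zero =>
    refine ⟨?_, ?_⟩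
    · rw [pow_zero, Nat.cast_zero, zero_mul]
      exact low_one
    · rw [pow_zero, pow_zero, Nat.cast_zero, zero_mul, HahnSeries.coeff_one, if_pos rfl]
  | succ n ih =>
    have h : ((n + 1 : ℕ) : ℝ) * a = n * a + a := by
      push_cast
      ring
    rw [h, pow_succ, pow_succ]
    refine ⟨ih.1.mul hx, ?_⟩
    rw [Low.coeff_mul ih.1 hx, ih.2]

theorem low_order [Zero B] (x : HahnSeries ℝ B) : Low x x.order :=
  fun _ hc => HahnSeries.coeff_eq_zero_of_lt_order hc

end low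

section a0
variable {F : Type} [Field F]

theorem exists_cf1_mul {r s : H1 F} {a : ℝ} {i : ℤ} (h : cf1 (r * s) a i ≠ 0) :
    ∃ (a₁ a₂ : ℝ) (i₁ i₂ : ℤ), a₁ + a₂ = a ∧ i₁ + i₂ = i ∧ cf1 r a₁ i₁ ≠ 0 ∧
      cf1 s a₂ i₂ ≠ 0 := by
  classical
  unfold cf1 at h
  rw [HahnSeries.coeff_mul, AddMonoidAlgebra.coeff_sum, Finsupp.finsetSum_apply] at h
  obtain ⟨p, hp, h2⟩ := Finset.exists_ne_zero_of_sum_ne_zero h
  rw [AddMonoidAlgebra.coeff_mul] at h2
  obtain ⟨i₁, hi₁, h3⟩ := Finset.exists_ne_zero_of_sum_ne_zero h2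
  obtain ⟨i₂, hi₂, h4⟩ := Finset.exists_ne_zero_of_sum_ne_zero h3
  refine ⟨p.1, p.2, i₁, i₂, (Finset.mem_antidiagonal.mp hp).2.2, ?_,
    Finsupp.mem_support_iff.1 hi₁, Finsupp.mem_support_iff.1 hi₂⟩
  by_contra h5
  exact h4 (if_neg h5)

theorem A0.mul {σ : ℝ} {r s : H1 F} (hr : A0 σ r) (hs : A0 σ s) : A0 σ (r * s) := by
  intro a i h
  obtain ⟨a₁, a₂, i₁, i₂, rfl, rfl, h1, h2⟩ := exists_cf1_mul h
  have h3 := hr a₁ i₁ h1
  have h4 := hs a₂ i₂ h2
  push_cast
  constructor <;> linarith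

theorem cf1_add (r s : H1 F) (a : ℝ) (i : ℤ) : cf1 (r + s) a i = cf1 r a i + cf1 s a i := by
  simp [cf1]

theorem cf1_sub (r s : H1 F) (a : ℝ) (i : ℤ) : cf1 (r - s) a i = cf1 r a i - cf1 s a i := by
  simp [cf1]

theorem cf1_zero (a : ℝ) (i : ℤ) : cf1 (0 : H1 F) a i = 0 := by
  simp [cf1]

open Classical in
theorem cf1_single (b : ℝ) (j : ℤ) (x : F) (a : ℝ) (i : ℤ) :
    cf1 (HahnSeries.single b (AddMonoidAlgebra.single j x) : H1 F) a i =
      if a = b ∧ i = j then x else 0 := by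
  unfold cf1
  by_cases h : a = b
  · subst h
    rw [HahnSeries.coeff_single_same, AddMonoidAlgebra.coeff_single, Finsupp.single_apply]
    by_cases h2 : i = j
    · rw [if_pos h2.symm, if_pos ⟨rfl, h2⟩]
    · rw [if_neg (fun h3 => h2 h3.symm), if_neg (fun h3 => h2 h3.2)]
  · rw [HahnSeries.coeff_single_of_ne h, if_neg (fun h3 => h h3.1)]
    rfl

theorem A0.add {σ : ℝ} {r s : H1 F} (hr : A0 σ r) (hs : A0 σ s) : A0 σ (r + s) := by
  intro a i h
  rw [cf1_add] at h
  by_cases h1 : cf1 r a i = 0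
  · rw [h1, zero_add] at h
    exact hs a i h
  · exact hr a i h1

theorem A0.sub {σ : ℝ} {r s : H1 F} (hr : A0 σ r) (hs : A0 σ s) : A0 σ (r - s) := by
  intro a i h
  rw [cf1_sub] at h
  by_cases h1 : cf1 r a i = 0
  · rw [h1, zero_sub, neg_ne_zero] at h
    exact hs a i h
  · exact hr a i h1

theorem a0_zero (σ : ℝ) : A0 σ (0 : H1 F) := by
  intro a i h
  exact absurd (cf1_zero a i) h

theorem a0_one (σ : ℝ) : A0 σ (1 : H1 F) := by
  intro a i h
  have h1 : (1 : H1 F) = HahnSeries.single 0 (AddMonoidAlgebra.single 0 1) := rfl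
  rw [h1, cf1_single] at h
  by_cases h2 : a = 0 ∧ i = 0
  · obtain ⟨rfl, rfl⟩ := h2
    simp
  · exact absurd (if_neg h2) h

theorem a0_x {σ : ℝ} (x : F) :
    A0 σ (HahnSeries.single σ (AddMonoidAlgebra.single 1 x) : H1 F) := by
  intro a i h
  rw [cf1_single] at h
  by_cases h2 : a = σ ∧ i = 1
  · obtain ⟨rfl, rfl⟩ := h2
    push_cast
    constructor <;> linarith
  · exact absurd (if_neg h2) h

theorem a0_y {σ : ℝ} (x : F) :
    A0 σ (HahnSeries.single (1 - σ) (AddMonoidAlgebra.single (-1) x) : H1 F) := by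
  intro a i h
  rw [cf1_single] at h
  by_cases h2 : a = 1 - σ ∧ i = -1
  · obtain ⟨rfl, rfl⟩ := h2
    push_cast
    constructor <;> linarith
  · exact absurd (if_neg h2) h

theorem a0_W0 (σ : ℝ) : A0 σ (W0 F σ) := (a0_x _).add (a0_y _)

theorem a0_D0 (σ : ℝ) : A0 σ (D0 F σ) := (a0_x _).sub (a0_y _)

theorem A0.pow {σ : ℝ} {r : H1 F} (hr : A0 σ r) (n : ℕ) : A0 σ (r ^ n) := by
  induction n with
  | zero => rw [pow_zero]; exact a0_one σ
  | succ n ih => rw [pow_succ]; exact ih.mul hr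

theorem A0.zpow {σ : ℝ} {c : (H1 F)ˣ} (h : A0 σ (c : H1 F)) (h' : A0 σ ((c⁻¹ : (H1 F)ˣ) : H1 F))
    (n : ℤ) : A0 σ ((c ^ n : (H1 F)ˣ) : H1 F) := by
  rcases Int.eq_nat_or_neg n with ⟨m, rfl | rfl⟩
  · rw [zpow_natCast, Units.val_pow_eq_pow_val]
    exact h.pow m
  · rw [zpow_neg, zpow_natCast, ← inv_pow, Units.val_pow_eq_pow_val]
    exact h'.pow m

theorem A0.nonneg {σ : ℝ} (h0 : 0 < σ) (h1 : σ < 1) {r : H1 F} (hr : A0 σ r) : Low r 0 := by
  intro a ha
  ext i
  by_contra h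
  obtain ⟨h2, h3⟩ := hr a i h
  rcases le_or_gt 0 (i : ℝ) with h4 | h4
  · nlinarith
  · nlinarith

/-- the row `i` as an additive map -/
noncomputable def row (i : ℤ) : H1 F →+ HK F where
  toFun r := HahnSeries.map r ((Finsupp.applyAddHom i).comp
    (AddMonoidAlgebra.coeffAddEquiv (R := F) (M := ℤ)).toAddMonoidHom)
  map_zero' := by ext; simp
  map_add' x y := by ext; simp

theorem coeff_row (i : ℤ) (r : H1 F) (a : ℝ) : (row i r).coeff a = cf1 r a i := rfl

end a0

end Pool.Agent.TH159.IA
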