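import Pool.Agent.TH396.IN.Defs

/-! The tube at the node of the curves `Z ^ 2 = Ω (z) - t`: definitions.

`z = u ^ 2`, `Z = ω (u)` with `ω (u) = u ^ (2 k) (u - u⁻¹)` and `k = 0` or `k = 1`. -/

set_option autoImplicit false

namespace Pool.Agent.TH159.IA

open Pool.Agent.TH396.IN

section defs
variable (F : Type) [Field F]

/-- Laurent polynomials in one variable (`X` or `u`) -/
abbrev LZ : Type := AddMonoidAlgebra F ℤ
/-- Hahn series in `t` with real exponents -/
abbrev HK : Type := HahnSeries ℝ F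
/-- Hahn series in `t` whose coefficients are Laurent polynomials in `X` -/
abbrev H1 : Type := HahnSeries ℝ (LZ F)
/-- Hahn series in `t` whose coefficients are in `X`, in `Y` and in the spectators -/
abbrev H2 (P : Type) [AddCommMonoid P] : Type := HahnSeries ℝ (LP F (ℕ × P))

variable {F}

/-- the coefficient of `t ^ a * X ^ i` -/
noncomputable def cf1 (r : H1 F) (a : ℝ) (i : ℤ) : F := (r.coeff a).coeff i

/-- all terms `t ^ a * X ^ i` satisfy `σ i ≤ a` and `-(1 - σ) i ≤ a` -/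
def A0 (σ : ℝ) (r : H1 F) : Prop := ∀ a i, cf1 r a i ≠ 0 → σ * i ≤ a ∧ -((1 - σ) * i) ≤ a

/-- all coefficients of `t ^ a`, `a < b`, are zero -/
def Low {B : Type} [Zero B] (x : HahnSeries ℝ B) (b : ℝ) : Prop := ∀ a < b, x.coeff a = 0

/-- `(x + y) / 2`, `x = t ^ σ X`, `y = t ^ (1 - σ) X ^ (-1)` -/
noncomputable def W0 (F : Type) [Field F] (σ : ℝ) : H1 F :=
  HahnSeries.single σ (AddMonoidAlgebra.single 1 (1 / 2)) +
    HahnSeries.single (1 - σ) (AddMonoidAlgebra.single (-1) (1 / 2))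

/-- `(x - y) / 2` -/
noncomputable def D0 (F : Type) [Field F] (σ : ℝ) : H1 F :=
  HahnSeries.single σ (AddMonoidAlgebra.single 1 (1 / 2)) -
    HahnSeries.single (1 - σ) (AddMonoidAlgebra.single (-1) (1 / 2))

/-- `ω (c) = c ^ (2 k) (c - c⁻¹)` -/
def om {S : Type} [CommRing S] (k : ℕ) (c : Sˣ) : S :=
  (c : S) ^ (2 * k) * ((c : S) - ((c⁻¹ : Sˣ) : S))

/-- the monomials `z ^ a Z ^ n` at `z = c ^ 2`, `Z = D` -/
def bm {S : Type} [CommRing S] (c : Sˣ) (D : S) : Multiplicative (ℤ × ℕ) →* S where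
  toFun m := ((c ^ (2 * m.toAdd.1) : Sˣ) : S) * D ^ m.toAdd.2
  map_one' := by simp
  map_mul' m m' := by
    rw [toAdd_mul, Prod.fst_add, Prod.snd_add, mul_add, zpow_add, Units.val_mul, pow_add]
    ring

/-- the value of a polynomial in `z ^ (±1)`, `Z` at `z = c ^ 2`, `Z = D` -/
noncomputable def bi {S : Type} [CommRing S] [Algebra F S] (c : Sˣ) (D : S) :
    AddMonoidAlgebra F (ℤ × ℕ) →+* S :=
  AddMonoidAlgebra.liftNCRingHom (algebraMap F S) (bm c D) (fun _ _ => Commute.all _ _)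

/-- the variable `u` -/
noncomputable def uu (F : Type) [Field F] : (LZ F)ˣ where
  val := AddMonoidAlgebra.single 1 1
  inv := AddMonoidAlgebra.single (-1) 1
  val_inv := by
    rw [AddMonoidAlgebra.single_mul_single, AddMonoidAlgebra.one_def, one_mul, add_neg_cancel]
  inv_val := by
    rw [AddMonoidAlgebra.single_mul_single, AddMonoidAlgebra.one_def, one_mul, neg_add_cancel]

/-- the Laurent polynomial `G (u) = ∑ g_(a,n) u ^ (2 a) ω (u) ^ n` -/
noncomputable def GG (k : ℕ) (g : AddMonoidAlgebra F (ℤ × ℕ)) : LZ F :=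
  bi (uu F) (om k (uu F)) g

/-- the inclusion of the constants -/
noncomputable def inc (B : Type) [CommRing B] [Algebra F B] : HK F →+* HahnSeries ℝ B where
  toFun x := x.map (algebraMap F B)
  map_one' := by
    ext a
    simp only [HahnSeries.map_coeff, HahnSeries.coeff_one]
    split_ifs <;> simp
  map_mul' x y := HahnSeries.map_mul ((algebraMap F B) : F →ₙ+* B)
  map_zero' := by ext; simp
  map_add' x y := by ext; simp

/-- the unperturbed evaluation -/
noncomputable def Ph0 (c : (H1 F)ˣ) (D : H1 F) : AddMonoidAlgebra (HK F) (ℤ × ℕ) →+* H1 F :=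
  AddMonoidAlgebra.liftNCRingHom (inc (LZ F)) (bm c D) (fun _ _ => Commute.all _ _)

/-- the coefficients of `t ^ b` -/
noncomputable def red (g : AddMonoidAlgebra (HK F) (ℤ × ℕ)) (b : ℝ) :
    AddMonoidAlgebra F (ℤ × ℕ) :=
  .ofCoeff (g.coeff.mapRange (fun x : HK F => x.coeff b) (by simp))

/-- the node: `c` with `ω (c) = W0` -/
structure IsC (k : ℕ) (σ : ℝ) (c : (H1 F)ˣ) : Prop where
  om_eq : om k c = W0 F σ
  a0 : A0 σ (c : H1 F)
  a0' : A0 σ ((c⁻¹ : (H1 F)ˣ) : H1 F)
  one : (c : H1 F).coeff 0 = 1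

end defs

end Pool.Agent.TH159.IA
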