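import Pool.Agent.TH159.IA.Defs

/-! The equation of the curve and the embedding of the polynomials in `z`, `Z`. -/

set_option autoImplicit false

namespace Pool.Agent.TH159.IA

open Pool.Agent.TH396.IN

/-- polynomials in `z ^ (±1)`, `Z` as polynomials without spectators -/
noncomputable def emb (K : Type) [Field K] (P : Type) [AddCommMonoid P] :
    AddMonoidAlgebra K (ℤ × ℕ) →+* LP K (ℕ × P) :=
  AddMonoidAlgebra.mapDomainRingHom K
    ((AddMonoidHom.fst ℤ ℕ).prod ((AddMonoidHom.inl ℕ P).comp (AddMonoidHom.snd ℤ ℕ)))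

theorem emb_single (K : Type) [Field K] (P : Type) [AddCommMonoid P] (a : ℤ) (n : ℕ) (x : K) :
    emb K P (AddMonoidAlgebra.single (a, n) x) = AddMonoidAlgebra.single (a, (n, 0)) x := by
  unfold emb
  rw [AddMonoidAlgebra.mapDomainRingHom_apply, AddMonoidAlgebra.mapDomain_single]
  rfl

/-- `Z ^ 2 - Ω (z) + t`, `Ω (z) = z ^ (2 k) (z - 2 + z⁻¹)` -/
noncomputable def Hk {K : Type} [Field K] (P : Type) [AddCommMonoid P] (k : ℕ) (t : K) :
    LP K (ℕ × P) :=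
  AddMonoidAlgebra.single (0, (2, 0)) 1 - AddMonoidAlgebra.single (2 * (k : ℤ) + 1, (0, 0)) 1 +
    AddMonoidAlgebra.single (2 * (k : ℤ), (0, 0)) 2 -
    AddMonoidAlgebra.single (2 * (k : ℤ) - 1, (0, 0)) 1 + AddMonoidAlgebra.single (0, (0, 0)) t

/-- the windows: for all nonzero `g₀` with exponents in `T`, `G (u)` is nonzero with exponents
between `p₀` and `p₁` -/
def Win (F : Type) [Field F] (k : ℕ) (T : Set (ℤ × ℕ)) (p₀ p₁ : ℝ) : Prop :=
  ∀ g₀ : AddMonoidAlgebra F (ℤ × ℕ), g₀ ≠ 0 → (∀ m, g₀.coeff m ≠ 0 → m ∈ T) →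
    GG k g₀ ≠ 0 ∧ ∀ i : ℤ, (GG k g₀).coeff i ≠ 0 → p₀ ≤ i ∧ i ≤ p₁

end Pool.Agent.TH159.IA
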