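import Pool.Agent.TH159.IA.Spec

/-! The image of the equation of the curve on the tube. -/

set_option autoImplicit false

namespace Pool.Agent.TH159.IA

open Pool.Agent.TH396.IN

section hk
variable {F : Type} [Field F] {P : Type} [AddCommMonoid P]

theorem om_sq {S : Type} [CommRing S] (k : ℕ) (c : Sˣ) :
    om k c ^ 2 = ((c ^ (2 * (2 * (k : ℤ) + 1)) : Sˣ) : S) - 2 * ((c ^ (2 * (2 * (k : ℤ))) : Sˣ) : S) +
      ((c ^ (2 * (2 * (k : ℤ) - 1)) : Sˣ) : S) := by
  have e1 : ((c ^ (2 * (2 * (k : ℤ))) : Sˣ) : S) = (c : S) ^ (2 * k) * (c : S) ^ (2 * k) := by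
    have : 2 * (2 * (k : ℤ)) = ((2 * k + 2 * k : ℕ) : ℤ) := by push_cast; ring
    rw [this, zpow_natCast, Units.val_pow_eq_pow_val, pow_add]
  have e2 : ((c ^ (2 * (2 * (k : ℤ) + 1)) : Sˣ) : S) =
      (c : S) ^ (2 * k) * (c : S) ^ (2 * k) * ((c : S) * (c : S)) := by
    have : 2 * (2 * (k : ℤ) + 1) = 2 * (2 * (k : ℤ)) + ((2 : ℕ) : ℤ) := by push_cast; ring
    rw [this, zpow_add, Units.val_mul, e1, zpow_natCast, Units.val_pow_eq_pow_val, pow_two]
  have e3 : ((c ^ (2 * (2 * (k : ℤ) - 1)) : Sˣ) : S) =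
      (c : S) ^ (2 * k) * (c : S) ^ (2 * k) * (((c⁻¹ : Sˣ) : S) * ((c⁻¹ : Sˣ) : S)) := by
    have : 2 * (2 * (k : ℤ) - 1) = 2 * (2 * (k : ℤ)) + (-((2 : ℕ) : ℤ)) := by push_cast; ring
    rw [this, zpow_add, Units.val_mul, e1, zpow_neg, zpow_natCast, ← inv_pow,
      Units.val_pow_eq_pow_val, pow_two]
  have h : (c : S) * ((c⁻¹ : Sˣ) : S) = 1 := Units.mul_inv c
  rw [e1, e2, e3]
  unfold om
  have : ((c : S) ^ (2 * k) * ((c : S) - ((c⁻¹ : Sˣ) : S))) ^ 2 =
      (c : S) ^ (2 * k) * (c : S) ^ (2 * k) * ((c : S) * (c : S)) -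
        2 * ((c : S) * ((c⁻¹ : Sˣ) : S)) * ((c : S) ^ (2 * k) * (c : S) ^ (2 * k)) +
        (c : S) ^ (2 * k) * (c : S) ^ (2 * k) * (((c⁻¹ : Sˣ) : S) * ((c⁻¹ : Sˣ) : S)) := by ring
  rw [this, h]
  ring

theorem W0_sq_sub_D0_sq [CharZero F] (σ : ℝ) : W0 F σ ^ 2 - D0 F σ ^ 2 =
    HahnSeries.single 1 (AddMonoidAlgebra.single 0 1) := by
  have h : W0 F σ ^ 2 - D0 F σ ^ 2 = 4 * ((HahnSeries.single σ (AddMonoidAlgebra.single 1 (1 / 2)) *
      HahnSeries.single (1 - σ) (AddMonoidAlgebra.single (-1) (1 / 2)) : H1 F)) := by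
    unfold W0 D0
    ring
  rw [h, HahnSeries.single_mul_single, AddMonoidAlgebra.single_mul_single]
  have e1 : σ + (1 - σ) = 1 := by ring
  have e2 : (1 : ℤ) + -1 = 0 := by norm_num
  have e4 : (4 : H1 F) = HahnSeries.single 0 (AddMonoidAlgebra.single 0 4) := by
    have : (AddMonoidAlgebra.single (0 : ℤ) (4 : F) : LZ F) = 4 := rfl
    rw [this]
    rfl
  rw [e1, e2, e4, HahnSeries.single_mul_single, AddMonoidAlgebra.single_mul_single, zero_add,
    zero_add]
  congr 2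
  have : (2 : F) ≠ 0 := two_ne_zero
  field_simp
  norm_num

/-- the image of the equation -/
theorem Ph_Hk [CharZero F] {k : ℕ} {σ s : ℝ} {c : (H1 F)ˣ} (hc : IsC k σ c) :
    Ph (Units.map (jj F P : H1 F →* H2 F P) c) (DD F P σ s) (Hk P k (HahnSeries.single 1 1)) =
      HahnSeries.single (σ + s) (AddMonoidAlgebra.single (0, (1, 0)) 1) -
        HahnSeries.single (1 - σ + s) (AddMonoidAlgebra.single (-2, (1, 0)) 1) +
        HahnSeries.single (2 * s) (AddMonoidAlgebra.single (-2, (2, 0)) 1) := by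
  obtain ⟨C, hC⟩ : ∃ C, C = Units.map (jj F P : H1 F →* H2 F P) c := ⟨_, rfl⟩
  have hom : om k C = jj F P (W0 F σ) := by
    rw [← hc.om_eq, hC]
    unfold om
    rw [map_mul, map_sub, map_pow, ← map_inv]
    rfl
  have h1 := om_sq k C
  rw [hom] at h1
  rw [← hC]
  unfold Hk
  rw [map_add, map_sub, map_add, map_sub, Ph_single, Ph_single, Ph_single, Ph_single, Ph_single,
    sp_zero]
  have i1 : inc (LP F (ℕ × P)) (1 : HK F) = 1 := map_one _
  have i2 : inc (LP F (ℕ × P)) (2 : HK F) = 2 := map_ofNat _ 2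
  have it : inc (LP F (ℕ × P)) (HahnSeries.single 1 1 : HK F) =
      jj F P (W0 F σ) ^ 2 - jj F P (D0 F σ) ^ 2 := by
    rw [← map_pow, ← map_pow, ← map_sub, W0_sq_sub_D0_sq]
    unfold jj
    rw [hmap_single, jR_single]
    classical
    apply HahnSeries.ext
    funext a
    rw [inc_coeff, HahnSeries.coeff_single, HahnSeries.coeff_single]
    split_ifs
    · rw [map_one]
      rfl
    · rw [map_zero]
  rw [i1, i2, it]
  simp only [mul_one, one_mul, pow_zero, mul_zero, zpow_zero, Units.val_one]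
  have h2 : DD F P σ s ^ 2 - ((C ^ (2 * (2 * (k : ℤ) + 1)) : (H2 F P)ˣ) : H2 F P) +
      2 * ((C ^ (2 * (2 * (k : ℤ))) : (H2 F P)ˣ) : H2 F P) -
      ((C ^ (2 * (2 * (k : ℤ) - 1)) : (H2 F P)ˣ) : H2 F P) +
      (jj F P (W0 F σ) ^ 2 - jj F P (D0 F σ) ^ 2) =
      (2 * jj F P (D0 F σ)) * dl F P s + dl F P s ^ 2 := by
    have : DD F P σ s = jj F P (D0 F σ) + dl F P s := rfl
    rw [this, h1]
    ring
  rw [h2]
  have h3 : 2 * jj F P (D0 F σ) = HahnSeries.single σ (AddMonoidAlgebra.single (1, 0) 1) -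
      HahnSeries.single (1 - σ) (AddMonoidAlgebra.single (-1, 0) 1) := by
    have e : (2 : H2 F P) = jj F P 2 := (map_ofNat (jj F P) 2).symm
    rw [e, ← map_mul]
    have e2 : (2 : H1 F) * D0 F σ = HahnSeries.single σ (AddMonoidAlgebra.single 1 1) -
        HahnSeries.single (1 - σ) (AddMonoidAlgebra.single (-1) 1) := by
      have e3 : (2 : H1 F) = HahnSeries.single 0 (AddMonoidAlgebra.single 0 2) := by
        have : (AddMonoidAlgebra.single (0 : ℤ) (2 : F) : LZ F) = 2 := rfl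
        rw [this]
        rfl
      unfold D0
      rw [mul_sub, e3, HahnSeries.single_mul_single, HahnSeries.single_mul_single,
        AddMonoidAlgebra.single_mul_single, AddMonoidAlgebra.single_mul_single, zero_add, zero_add,
        zero_add, zero_add, mul_one_div, div_self (two_ne_zero : (2 : F) ≠ 0)]
    rw [e2, map_sub]
    unfold jj
    rw [hmap_single, hmap_single, jR_single, jR_single]
  rw [h3, sub_mul, pow_two]
  unfold dl
  rw [HahnSeries.single_mul_single, HahnSeries.single_mul_single, HahnSeries.single_mul_single,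
    AddMonoidAlgebra.single_mul_single, AddMonoidAlgebra.single_mul_single,
    AddMonoidAlgebra.single_mul_single, mul_one, ← two_mul s]
  have a1 : ((1, 0) : ℤ × (ℕ × P)) + (-1, (1, 0)) = (0, (1, 0)) := by
    rw [Prod.mk_add_mk, zero_add]
    norm_num
  have a2 : ((-1, 0) : ℤ × (ℕ × P)) + (-1, (1, 0)) = (-2, (1, 0)) := by
    rw [Prod.mk_add_mk, zero_add]
    norm_num
  have a3 : ((-1, (1, 0)) : ℤ × (ℕ × P)) + (-1, (1, 0)) = (-2, (2, 0)) := by
    rw [Prod.mk_add_mk, Prod.mk_add_mk, add_zero]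
    norm_num
  rw [a1, a2, a3]

end hk

end Pool.Agent.TH159.IA
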