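import Pool.Agent.TH159.IA.KeyGen
import Pool.Agent.TH386.IA.Key2

/-! KEY2. -/

set_option autoImplicit false

namespace Pool.Agent.TH159.IA

open Pool.Agent.TH396.IN

theorem key2 (ι : Type) [Fintype ι] : Key2 ι :=
  Pool.Agent.TH386.IA.key2_of fun _ _ _ _ _ _ _ h0 h1 hs e => key_gen (by norm_num) h0 h1 hs e

end Pool.Agent.TH159.IA
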