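import Pool.Agent.TH159.IA.A0

/-! The root `c` of `ω (c) = (x + y) / 2` in Hahn series. The construction of the formal power
series by a contraction is that of `Pool.Agent.TH380.PN.Root`. -/

set_option autoImplicit false

namespace Pool.Agent.TH159.IA

open Pool.Agent.TH396.IN

namespace Root

variable {F : Type} [Field F]

open PowerSeries in
/-- contractions of the ring of formal power series have fixed points -/
theorem exists_fixed (T : PowerSeries F → PowerSeries F)
    (hT : ∀ a b, X * (a - b) ∣ T a - T b) : ∃ u, T u = u := by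
  set s : ℕ → PowerSeries F := fun k => T^[k] 0 with hs
  have hsucc : ∀ k, s (k + 1) = T (s k) := fun k => Function.iterate_succ_apply' T k 0
  have h1 : ∀ k, (X : PowerSeries F) ^ k ∣ s (k + 1) - s k := by
    intro k
    induction k with
    | zero => simp
    | succ k ih =>
      rw [hsucc (k + 1), hsucc k]
      refine dvd_trans ?_ (hT _ _)
      rw [pow_succ']
      refine mul_dvd_mul_left _ ?_
      rw [← hsucc k]
      exact ih
  have h2 : ∀ k m, k ≤ m → (X : PowerSeries F) ^ k ∣ s m - s k := by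
    intro k m hkm
    induction m, hkm using Nat.le_induction with
    | base => simp
    | succ m hkm ih =>
      have e : s (m + 1) - s k = (s (m + 1) - s m) + (s m - s k) := by ring
      rw [e]
      exact dvd_add (dvd_trans (pow_dvd_pow _ hkm) (h1 m)) ih
  set u : PowerSeries F := PowerSeries.mk (fun n => coeff n (s (n + 1))) with hu
  have h3 : ∀ k, (X : PowerSeries F) ^ k ∣ u - s k := by
    intro k
    rw [X_pow_dvd_iff]
    intro m hm
    rw [map_sub, hu, coeff_mk]
    have h4 := (X_pow_dvd_iff.1 (h2 (m + 1) k (by omega))) m (by omega)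
    rw [map_sub] at h4
    rw [sub_eq_zero] at h4 ⊢
    exact h4.symm
  refine ⟨u, ?_⟩
  ext k
  have h5 : (X : PowerSeries F) ^ (k + 1) ∣ T u - u := by
    have e : T u - u = (T u - T (s k)) - (u - s (k + 1)) := by rw [hsucc]; ring
    rw [e]
    refine dvd_sub (dvd_trans ?_ (hT _ _)) (h3 _)
    rw [pow_succ']
    exact mul_dvd_mul_left _ (h3 k)
  have h6 := (X_pow_dvd_iff.1 h5) k (by omega)
  rw [map_sub, sub_eq_zero] at h6
  exact h6

open PowerSeries in
/-- `f = 1 + X u` satisfies `f ^ (2 k) (f ^ 2 - 1) = X f` -/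
theorem exists_ps (h2 : (2 : F) ≠ 0) {k : ℕ} (hk : k ≤ 1) :
    ∃ u : PowerSeries F, (1 + X * u) ^ (2 * k) * ((1 + X * u) ^ 2 - 1) = X * (1 + X * u) := by
  have hC : (C (1 / 2 : F)) * (2 : PowerSeries F) = 1 := by
    have : (2 : PowerSeries F) = C (2 : F) := (map_ofNat C 2).symm
    rw [this, ← map_mul, one_div, inv_mul_cancel₀ h2, map_one]
  rcases Nat.le_one_iff_eq_zero_or_eq_one.1 hk with rfl | rfl
  · obtain ⟨u, hu⟩ := exists_fixed
      (fun u : PowerSeries F => C (1 / 2 : F) * (1 + X * u - X * u ^ 2)) (by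
        intro a b
        refine ⟨C (1 / 2 : F) * (1 - (a + b)), ?_⟩
        ring)
    have hu' : C (1 / 2 : F) * (1 + X * u - X * u ^ 2) = u := hu
    refine ⟨u, ?_⟩
    have h3 : 2 * u = 1 + X * u - X * u ^ 2 := by
      calc 2 * u = 2 * (C (1 / 2 : F) * (1 + X * u - X * u ^ 2)) := by rw [hu']
        _ = (C (1 / 2 : F) * 2) * (1 + X * u - X * u ^ 2) := by ring
        _ = _ := by rw [hC, one_mul]
    rw [mul_zero, pow_zero]
    linear_combination X * h3
  · obtain ⟨u, hu⟩ := exists_fixed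
      (fun u : PowerSeries F => C (1 / 2 : F) * (1 - 3 * X * u ^ 2 - X ^ 2 * u ^ 3)) (by
        intro a b
        refine ⟨-(C (1 / 2 : F) * (3 * (a + b) + X * (a ^ 2 + a * b + b ^ 2))), ?_⟩
        ring)
    have hu' : C (1 / 2 : F) * (1 - 3 * X * u ^ 2 - X ^ 2 * u ^ 3) = u := hu
    refine ⟨u, ?_⟩
    have h3 : 2 * u = 1 - 3 * X * u ^ 2 - X ^ 2 * u ^ 3 := by
      calc 2 * u = 2 * (C (1 / 2 : F) * (1 - 3 * X * u ^ 2 - X ^ 2 * u ^ 3)) := by
            rw [hu']
        _ = (C (1 / 2 : F) * 2) * (1 - 3 * X * u ^ 2 - X ^ 2 * u ^ 3) := by ring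
        _ = _ := by rw [hC, one_mul]
    linear_combination (X * (1 + X * u)) * h3

open PowerSeries in
/-- the root as a unit -/
theorem exists_unit (h2 : (2 : F) ≠ 0) {k : ℕ} (hk : k ≤ 1) :
    ∃ κ : (PowerSeries F)ˣ, om k κ = X ∧ constantCoeff (κ : PowerSeries F) = 1 := by
  obtain ⟨u, hu⟩ := exists_ps h2 hk
  have h1 : constantCoeff (1 + X * u : PowerSeries F) = 1 := by simp
  have h3 : IsUnit (1 + X * u : PowerSeries F) := by
    rw [PowerSeries.isUnit_iff_constantCoeff, h1]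
    exact isUnit_one
  obtain ⟨κ, hκ⟩ := h3
  refine ⟨κ, ?_, by rw [hκ]; exact h1⟩
  have h4 : om k κ * (κ : PowerSeries F) = X * (κ : PowerSeries F) := by
    unfold om
    rw [← hκ] at hu
    have : (κ : PowerSeries F) ^ (2 * k) * ((κ : PowerSeries F) -
        ((κ⁻¹ : (PowerSeries F)ˣ) : PowerSeries F)) * κ = (κ : PowerSeries F) ^ (2 * k) *
        ((κ : PowerSeries F) ^ 2 - ((κ⁻¹ : (PowerSeries F)ˣ) : PowerSeries F) * κ) := by ring
    rw [this, Units.inv_mul, hu]
  exact (Units.mul_left_inj κ).1 h4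

theorem W0_pos {σ : ℝ} (h0 : 0 < σ) (h1 : σ < 1) : 0 < (W0 F σ).orderTop := by
  unfold W0
  refine lt_of_lt_of_le ?_ HahnSeries.min_orderTop_le_orderTop_add
  rw [lt_min_iff]
  constructor
  · exact HahnSeries.lt_orderTop_single h0
  · exact HahnSeries.lt_orderTop_single (by linarith : (0 : ℝ) < 1 - σ)

/-- the substitution of `W0` -/
noncomputable def sub (F : Type) [Field F] (σ : ℝ) : PowerSeries F →+* H1 F :=
  (@AlgHom.toRingHom (LZ F) (PowerSeries (LZ F)) (H1 F) _ _ _ _ HahnSeries.instAlgebra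
    (PowerSeries.heval (W0 F σ))).comp (PowerSeries.map (algebraMap F (LZ F)))

theorem sub_X {σ : ℝ} (h0 : 0 < σ) (h1 : σ < 1) : sub F σ PowerSeries.X = W0 F σ := by
  show PowerSeries.heval (W0 F σ) (PowerSeries.map (algebraMap F (LZ F)) PowerSeries.X) = _
  rw [PowerSeries.map_X, PowerSeries.heval_X _ (W0_pos h0 h1)]

theorem sub_zero' {σ : ℝ} (p : PowerSeries F) :
    (sub F σ p).coeff 0 = algebraMap F (LZ F) (PowerSeries.constantCoeff p) := by
  show (PowerSeries.heval (W0 F σ) (PowerSeries.map (algebraMap F (LZ F)) p)).coeff 0 = _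
  rw [PowerSeries.coeff_heval_zero, ← PowerSeries.coeff_zero_eq_constantCoeff_apply,
    PowerSeries.coeff_map, PowerSeries.coeff_zero_eq_constantCoeff_apply]

theorem a0_sub {σ : ℝ} (h0 : 0 < σ) (h1 : σ < 1) (p : PowerSeries F) : A0 σ (sub F σ p) := by
  intro a i h
  have h2 : sub F σ p = (HahnSeries.SummableFamily.powerSeriesFamily (W0 F σ)
      (PowerSeries.map (algebraMap F (LZ F)) p)).hsum := rfl
  unfold cf1 at h
  rw [h2, HahnSeries.SummableFamily.coeff_hsum_eq_sum, AddMonoidAlgebra.coeff_sum,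
    Finsupp.finsetSum_apply] at h
  obtain ⟨n, _, h3⟩ := Finset.exists_ne_zero_of_sum_ne_zero h
  rw [HahnSeries.SummableFamily.powerSeriesFamily_of_orderTop_pos (W0_pos h0 h1),
    HahnSeries.coeff_smul, PowerSeries.coeff_map, smul_eq_mul, ← Algebra.smul_def,
    AddMonoidAlgebra.coeff_smul_apply, smul_eq_mul] at h3
  exact (a0_W0 σ).pow n a i (right_ne_zero_of_mul h3)

end Root

open Root in
/-- T1 -/
theorem exists_c (F : Type) [Field F] [CharZero F] {k : ℕ} (hk : k ≤ 1) {σ : ℝ} (h0 : 0 < σ)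
    (h1 : σ < 1) : ∃ c : (H1 F)ˣ, IsC k σ c := by
  obtain ⟨κ, hκ, hκ1⟩ := exists_unit (F := F) two_ne_zero hk
  refine ⟨Units.map (sub F σ : PowerSeries F →* H1 F) κ, ?_, ?_, ?_, ?_⟩
  · rw [← sub_X h0 h1, ← hκ]
    unfold om
    rw [map_mul, map_sub, map_pow, ← map_inv]
    rfl
  · exact a0_sub h0 h1 _
  · rw [← map_inv]
    exact a0_sub h0 h1 _
  · show (sub F σ (κ : PowerSeries F)).coeff 0 = 1
    rw [sub_zero', hκ1, map_one]

end Pool.Agent.TH159.IA
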