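import Pool.Agent.TH159.IA.KeyGen0
import Pool.Agent.TH159.IA.T1
import Pool.Agent.TH396.IN.Edges

/-! The common core of the two key lemmas. -/

set_option autoImplicit false

namespace Pool.Agent.TH159.IA

open Pool.Agent.TH396.IN

/-- KEY, common core of key2 (`k = 0`) and key3 (`k = 1`) -/
theorem key_gen {F : Type} [Field F] [CharZero F] {P : Type} [AddCommMonoid P] {ι : Type} {k : ℕ}
    (hk : k ≤ 1) {σ s : ℝ} (h0 : 0 < σ) (h1 : σ < 1 / 2) (hs : 1 ≤ s)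
    (e : ι → (LP F (ℕ × P) →ₐ[F] F)) :
    ∃ e' : ι → (LP (HK F) (ℕ × P) →ₐ[HK F] HK F),
      ∀ (f : LP (HK F) (ℕ × P)) (w : ι → ℕ) (J : Finset (ℕ × P))
        (g : ℕ × P → AddMonoidAlgebra (HK F) (ℤ × ℕ)) (p₀ p₁ : ℕ × P → ℝ), f ≠ 0 → Mult e' w f →
        f = ∑ j ∈ J, emb (HK F) P (g j) * Hk P k (HahnSeries.single 1 1) ^ j.1 *
          AddMonoidAlgebra.single (0, (0, j.2)) 1 →
        (∀ j ∈ J, Win F k {m | (g j).coeff m ≠ 0} (p₀ j) (p₁ j) ∧ p₁ j - p₀ j < s) →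
        ∃ f' : LP F (ℕ × P), f' ≠ 0 ∧ Mult e w f' ∧ ∀ m, f'.coeff m ≠ 0 →
          m.2 ∈ J ∧ -(σ * (p₁ m.2 - p₀ m.2)) ≤ m.1 ∧
            (m.1 : ℝ) ≤ (1 - σ) * (p₁ m.2 - p₀ m.2) := by
  obtain ⟨c, hc⟩ := exists_c F hk h0 (by linarith)
  exact key_gen_of h0 h1 hs hc (fun hg _ _ hP => edges h0 (by linarith) hc hg hP) e

end Pool.Agent.TH159.IA
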