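import Pool.Agent.TH159.IA.LeadS

/-! The common core of the two key lemmas, from the edges. -/

set_option autoImplicit false

namespace Pool.Agent.TH159.IA

open Pool.Agent.TH396.IN

section CI
variable {B : Type} [CommRing B]

/-- Hahn series all of whose coefficients lie in `I` -/
def CI (I : Ideal B) : Ideal (HahnSeries ℝ B) where
  carrier := {x | ∀ a, x.coeff a ∈ I}
  add_mem' {x y} hx hy a := by
    rw [HahnSeries.coeff_add]
    exact I.add_mem (hx a) (hy a)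
  zero_mem' a := by
    rw [HahnSeries.coeff_zero]
    exact I.zero_mem
  smul_mem' c x hx a := by
    rw [smul_eq_mul, HahnSeries.coeff_mul]
    exact I.sum_mem fun ij _ => I.mul_mem_left _ (hx _)

theorem mem_CI {I : Ideal B} {x : HahnSeries ℝ B} : x ∈ CI I ↔ ∀ a, x.coeff a ∈ I := Iff.rfl

theorem CI_mul_le (I I' : Ideal B) : CI I * CI I' ≤ CI (I * I') := by
  rw [Ideal.mul_le]
  intro x hx y hy a
  rw [HahnSeries.coeff_mul]
  exact (I * I').sum_mem fun ij _ => Ideal.mul_mem_mul (hx _) (hy _)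

theorem CI_pow_le (I : Ideal B) (w : ℕ) : CI I ^ w ≤ CI (I ^ w) := by
  induction w with
  | zero => intro x _ a; simp
  | succ w ih =>
    rw [pow_succ, pow_succ]
    exact (Ideal.mul_mono_left ih).trans (CI_mul_le _ _)

theorem ker_hmap {C : Type} [CommRing C] (f : B →+* C) :
    RingHom.ker (hmap f) = CI (RingHom.ker f) := by
  ext x
  rw [RingHom.mem_ker, mem_CI]
  constructor
  · intro h a
    rw [RingHom.mem_ker, ← hmap_coeff, h, HahnSeries.coeff_zero]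
  · intro h
    apply HahnSeries.ext
    funext a
    rw [hmap_coeff, HahnSeries.coeff_zero]
    exact h a

/-- the coefficients of the image lie in the power of the kernel -/
theorem transfer {A C : Type} [CommRing A] [CommRing C] (φ : B →+* C)
    (Φ : A →+* HahnSeries ℝ B) {w : ℕ} {f : A} (hf : f ∈ RingHom.ker ((hmap φ).comp Φ) ^ w)
    (a : ℝ) : (Φ f).coeff a ∈ RingHom.ker φ ^ w := by
  have h1 : RingHom.ker ((hmap φ).comp Φ) = (CI (RingHom.ker φ)).comap Φ := by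
    rw [← ker_hmap]; rfl
  rw [h1] at hf
  have h2 := Ideal.le_comap_pow Φ w hf
  rw [Ideal.mem_comap] at h2
  exact CI_pow_le _ _ h2 a

end CI

section keygen
variable {F : Type} [Field F] [CharZero F] {P : Type} [AddCommMonoid P]

/-- a lower bound for the orders of the coefficients that is attained -/
theorem exists_min (g : AddMonoidAlgebra (HK F) (ℤ × ℕ)) (hg : g ≠ 0) :
    ∃ b : ℝ, (∀ m, Low (g.coeff m) b) ∧ red g b ≠ 0 := by
  have hne : g.coeff.support.Nonempty := by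
    rw [Finset.nonempty_iff_ne_empty]
    intro h
    apply hg
    apply AddMonoidAlgebra.coeff_injective
    rw [Finsupp.support_eq_empty.1 h]
    rfl
  obtain ⟨α, hα, hmin⟩ := Finset.exists_min_image g.coeff.support
    (fun m => (g.coeff m).order) hne
  refine ⟨(g.coeff α).order, ?_, ?_⟩
  · intro m
    by_cases hm : m ∈ g.coeff.support
    · exact (low_order _).mono (hmin m hm)
    · rw [Finsupp.notMem_support_iff.1 hm]
      exact low_zero _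
  · intro h
    have h1 := red_coeff g (g.coeff α).order α
    rw [h] at h1
    exact (Finsupp.mem_support_iff.1 hα) (HahnSeries.coeff_order_eq_zero.1 h1.symm)

theorem lead_emb {k : ℕ} {σ s : ℝ} (h0 : 0 < σ) (h1 : σ < 1) (hs : 0 ≤ s) {c : (H1 F)ˣ}
    (hc : IsC k σ c)
    (edges : ∀ {g : AddMonoidAlgebra F (ℤ × ℕ)} (_ : GG k g ≠ 0) {P0 P1 : ℝ}
      (_ : ∀ i : ℤ, (GG k g).coeff i ≠ 0 → P0 ≤ i ∧ i ≤ P1),
      ∃ α β : ℕ, (α : ℝ) + β ≤ P1 - P0 ∧ cf1 (bi c (D0 F σ) g) (σ * α) α ≠ 0 ∧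
        cf1 (bi c (D0 F σ) g) ((1 - σ) * β) (-(β : ℤ)) ≠ 0)
    {g : AddMonoidAlgebra (HK F) (ℤ × ℕ)} (hg : g ≠ 0) {p₀ p₁ : ℝ}
    (hW : Win F k {m | g.coeff m ≠ 0} p₀ p₁) (hL : p₁ - p₀ < s) :
    ∃ A, LeadAt (Ph (Units.map (jj F P : H1 F →* H2 F P) c) (DD F P σ s) (emb (HK F) P g)) A 0
      (-(σ * (p₁ - p₀))) ((1 - σ) * (p₁ - p₀)) := by
  obtain ⟨b, hb, hred⟩ := exists_min g hg
  obtain ⟨w1, w2⟩ := hW (red g b) hred (by
    intro m hm h
    rw [red_coeff, h] at hm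
    exact hm rfl)
  obtain ⟨α, β, hαβ, hα, hβ⟩ := edges w1 w2
  obtain ⟨A, hA1, hA2, hA3, hA4⟩ := lead0_of h0 h1 hc hb hαβ hα hβ
  have hdiff := low_diff (P := P) h0 h1 hs hc hb
  obtain ⟨x, hx⟩ : ∃ x, x = Ph (Units.map (jj F P : H1 F →* H2 F P) c) (DD F P σ s)
    (emb (HK F) P g) := ⟨_, rfl⟩
  rw [← hx] at hdiff ⊢
  have hco : ∀ a ≤ A, x.coeff a = jR F P ((Ph0 c (D0 F σ) g).coeff a) := by
    intro a ha
    have h2 := hdiff a (by linarith)
    rw [HahnSeries.coeff_sub, sub_eq_zero] at h2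
    rw [h2]
    rfl
  refine ⟨A, ?_, ?_, ?_⟩
  · intro a ha
    rw [hco a ha.le, hA2 a ha, map_zero]
  · rw [hco A le_rfl]
    intro h
    apply hA3
    apply jR_injective (F := F) (P := P)
    rw [h, map_zero]
  · intro m hm
    rw [hco A le_rfl] at hm
    obtain ⟨g1, g2⟩ := jR_coeff _ _ hm
    obtain ⟨g3, g4⟩ := hA4 m.1 g2
    exact ⟨g1, g3, g4⟩

theorem Ph_C (c : (H2 F P)ˣ) (D : H2 F P) (γ : HK F) :
    Ph c D (AddMonoidAlgebra.single 0 γ) = inc (LP F (ℕ × P)) γ := by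
  have h := Ph_single c D 0 0 0 γ
  rw [mul_zero, zpow_zero, Units.val_one, pow_zero, sp_zero, mul_one, mul_one, mul_one] at h
  exact h

/-- the points -/
noncomputable def pt (c : (H2 F P)ˣ) (D : H2 F P) (e : LP F (ℕ × P) →ₐ[F] F) :
    LP (HK F) (ℕ × P) →ₐ[HK F] HK F where
  toRingHom := (hmap (e : LP F (ℕ × P) →+* F)).comp (Ph c D)
  commutes' γ := by
    show hmap (e : LP F (ℕ × P) →+* F) (Ph c D (AddMonoidAlgebra.single 0 γ)) = γ
    rw [Ph_C]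
    apply HahnSeries.ext
    funext a
    rw [hmap_coeff, inc_coeff]
    exact e.commutes _

theorem key_gen_of {ι : Type} {k : ℕ} {σ s : ℝ} (h0 : 0 < σ) (h1 : σ < 1 / 2) (hs : 1 ≤ s)
    {c : (H1 F)ˣ} (hc : IsC k σ c)
    (edges : ∀ {g : AddMonoidAlgebra F (ℤ × ℕ)} (_ : GG k g ≠ 0) {P0 P1 : ℝ}
      (_ : ∀ i : ℤ, (GG k g).coeff i ≠ 0 → P0 ≤ i ∧ i ≤ P1),
      ∃ α β : ℕ, (α : ℝ) + β ≤ P1 - P0 ∧ cf1 (bi c (D0 F σ) g) (σ * α) α ≠ 0 ∧
        cf1 (bi c (D0 F σ) g) ((1 - σ) * β) (-(β : ℤ)) ≠ 0)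
    (e : ι → (LP F (ℕ × P) →ₐ[F] F)) :
    ∃ e' : ι → (LP (HK F) (ℕ × P) →ₐ[HK F] HK F),
      ∀ (f : LP (HK F) (ℕ × P)) (w : ι → ℕ) (J : Finset (ℕ × P))
        (g : ℕ × P → AddMonoidAlgebra (HK F) (ℤ × ℕ)) (p₀ p₁ : ℕ × P → ℝ), f ≠ 0 → Mult e' w f →
        f = ∑ j ∈ J, emb (HK F) P (g j) * Hk P k (HahnSeries.single 1 1) ^ j.1 *
          AddMonoidAlgebra.single (0, (0, j.2)) 1 →
        (∀ j ∈ J, Win F k {m | (g j).coeff m ≠ 0} (p₀ j) (p₁ j) ∧ p₁ j - p₀ j < s) →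
        ∃ f' : LP F (ℕ × P), f' ≠ 0 ∧ Mult e w f' ∧ ∀ m, f'.coeff m ≠ 0 →
          m.2 ∈ J ∧ -(σ * (p₁ m.2 - p₀ m.2)) ≤ m.1 ∧
            (m.1 : ℝ) ≤ (1 - σ) * (p₁ m.2 - p₀ m.2) := by
  classical
  obtain ⟨C, hC⟩ : ∃ C, C = Units.map (jj F P : H1 F →* H2 F P) c := ⟨_, rfl⟩
  obtain ⟨D, hD⟩ : ∃ D, D = DD F P σ s := ⟨_, rfl⟩
  refine ⟨fun i => pt C D (e i), ?_⟩
  intro f w J g p₀ p₁ hf hM hdec hJ
  obtain ⟨H, hH⟩ : ∃ H, H = Ph C D (Hk P k (HahnSeries.single 1 1)) := ⟨_, rfl⟩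
  have hH' := hH
  rw [hC, hD, Ph_Hk hc] at hH'
  obtain ⟨hH1, hH2⟩ := lead_Hk h1 hs hH'
  obtain ⟨J', hJ'⟩ : ∃ J', J' = J.filter (fun j => g j ≠ 0) := ⟨_, rfl⟩
  have hJm : ∀ j ∈ J', j ∈ J ∧ g j ≠ 0 := by
    intro j hj
    rw [hJ', Finset.mem_filter] at hj
    exact hj
  have hsp : ∀ p : P, Ph C D (AddMonoidAlgebra.single (0, (0, p)) 1) = sp F p := by
    intro p
    rw [Ph_single, mul_zero, zpow_zero, Units.val_one, pow_zero, map_one, mul_one, one_mul,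
      one_mul]
  have hlead : ∀ j ∈ J', ∃ A, LeadAt (Ph C D (emb (HK F) P (g j)) * H ^ j.1 * sp F j.2) A j
      (-(σ * (p₁ j - p₀ j))) ((1 - σ) * (p₁ j - p₀ j)) := by
    intro j hj
    obtain ⟨hj1, hj2⟩ := hJm j hj
    obtain ⟨hW, hL⟩ := hJ j hj1
    obtain ⟨A, hA⟩ := lead_emb (P := P) h0 (by linarith) (by linarith) hc edges hj2 hW hL
    rw [← hC, ← hD] at hA
    exact ⟨_, hA.mul_pow hH1 hH2 j.1 j.2⟩
  choose! A hA using hlead
  have hsum : Ph C D f = ∑ j ∈ J', Ph C D (emb (HK F) P (g j)) * H ^ j.1 * sp F j.2 := by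
    conv_lhs => rw [hdec]
    rw [map_sum, hJ', Finset.sum_filter]
    refine Finset.sum_congr rfl fun j _ => ?_
    split_ifs with h
    · rw [map_mul, map_mul, map_pow, hsp, ← hH]
    · push Not at h
      rw [h, map_zero, zero_mul, zero_mul, map_zero]
  have hJne : J'.Nonempty := by
    by_contra hcon
    rw [Finset.not_nonempty_iff_eq_empty] at hcon
    apply hf
    rw [hdec]
    refine Finset.sum_eq_zero fun j hj => ?_
    by_contra h
    have : j ∈ J' := by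
      rw [hJ']
      exact Finset.mem_filter.mpr ⟨hj, fun h' => h (by rw [h', map_zero, zero_mul, zero_mul])⟩
    rw [hcon] at this
    exact absurd this (Finset.notMem_empty _)
  obtain ⟨a, ha1, ha2⟩ := lead_sum hJne hA
  rw [← hsum] at ha1 ha2
  refine ⟨(Ph C D f).coeff a, ha1, ?_, ?_⟩
  · intro i
    exact transfer ((e i : LP F (ℕ × P) →ₐ[F] F) : LP F (ℕ × P) →+* F) (Ph C D) (hM i) a
  · intro m hm
    obtain ⟨g1, g2, g3⟩ := ha2 m hm
    exact ⟨(hJm _ g1).1, g2, g3⟩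

end keygen

end Pool.Agent.TH159.IA
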