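import Pool.Agent.TH159.IA.A0

/-! The leading coefficient of a polynomial in `z`, `Z` on the unperturbed tube. -/

set_option autoImplicit false

namespace Pool.Agent.TH159.IA

open Pool.Agent.TH396.IN

section sums

theorem sum_single_coeff {M R : Type*} [Semiring R] (f : AddMonoidAlgebra R M) :
    ∑ m ∈ f.coeff.support, AddMonoidAlgebra.single m (f.coeff m) = f := by
  ext m
  rw [AddMonoidAlgebra.coeff_sum, Finsupp.finsetSum_apply]
  classical
  simp only [AddMonoidAlgebra.coeff_single, Finsupp.single_apply]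
  rw [Finset.sum_ite_eq']
  split_ifs with h
  · rfl
  · exact (Finsupp.notMem_support_iff.1 h).symm

/-- sum over a larger set -/
theorem lift_eq_sum {M R S : Type*} [Semiring R] [AddCommMonoid M] [Semiring S]
    (Φ : AddMonoidAlgebra R M →+* S) (f : AddMonoidAlgebra R M) {s : Finset M}
    (hs : f.coeff.support ⊆ s) :
    Φ f = ∑ m ∈ s, Φ (AddMonoidAlgebra.single m (f.coeff m)) := by
  conv_lhs => rw [← sum_single_coeff f]
  rw [map_sum]
  refine Finset.sum_subset hs fun m _ h => ?_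
  rw [Finsupp.notMem_support_iff.1 h, AddMonoidAlgebra.single_zero, map_zero]

end sums

section mulsup
variable {B : Type} [CommRing B]

theorem coeff_mul_sub {x y : HahnSeries ℝ B} {s t : Set ℝ} (hs : s.IsPWO) (ht : t.IsPWO)
    (hxs : x.support ⊆ s) (hyt : y.support ⊆ t) (a : ℝ) :
    (x * y).coeff a = ∑ ij ∈ Finset.antidiagonal hs ht a, x.coeff ij.1 * y.coeff ij.2 := by
  classical
  rw [HahnSeries.coeff_mul]
  apply Finset.sum_subset
  · intro ij h
    rw [Finset.mem_antidiagonal] at h ⊢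
    exact ⟨hxs h.1, hyt h.2.1, h.2.2⟩
  · intro ij h h'
    rw [Finset.mem_antidiagonal] at h h'
    by_cases h1 : x.coeff ij.1 = 0
    · rw [h1, zero_mul]
    · by_cases h2 : y.coeff ij.2 = 0
      · rw [h2, mul_zero]
      · exact absurd ⟨h1, h2, h.2.2⟩ h'

end mulsup

section lead
variable {F : Type} [Field F]

theorem inc_coeff (B : Type) [CommRing B] [Algebra F B] (γ : HK F) (a : ℝ) :
    (inc B γ).coeff a = algebraMap F B (γ.coeff a) := rfl

theorem coeff_algebraMap_mul {M : Type} [AddCommMonoid M] (x : F) (r : AddMonoidAlgebra F M)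
    (m : M) : (algebraMap F (AddMonoidAlgebra F M) x * r).coeff m = x * r.coeff m := by
  rw [← Algebra.smul_def]
  rfl

theorem row_inc_mul (γ : HK F) (r : H1 F) (i : ℤ) :
    row i (inc (LZ F) γ * r) = γ * row i r := by
  ext a
  rw [coeff_row, cf1, coeff_mul_sub γ.isPWO_support r.isPWO_support,
    coeff_mul_sub γ.isPWO_support r.isPWO_support, AddMonoidAlgebra.coeff_sum,
    Finsupp.finsetSum_apply]
  · refine Finset.sum_congr rfl fun p _ => ?_
    rw [inc_coeff, coeff_algebraMap_mul]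
    rfl
  · exact subset_rfl
  · intro b hb hb'
    apply hb
    rw [coeff_row, cf1, hb']
    rfl
  · intro b hb hb'
    apply hb
    rw [inc_coeff, hb', map_zero]
  · exact subset_rfl

theorem low_row {σ : ℝ} {r : H1 F} (hr : A0 σ r) (i : ℤ) :
    Low (row i r) (σ * i) ∧ Low (row i r) (-((1 - σ) * i)) := by
  constructor
  · intro a ha
    rw [coeff_row]
    by_contra h
    exact absurd (hr a i h).1 (not_le.2 ha)
  · intro a ha
    rw [coeff_row]
    by_contra h
    exact absurd (hr a i h).2 (not_le.2 ha)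

theorem a0_bm {σ : ℝ} {k : ℕ} {c : (H1 F)ˣ} (hc : IsC k σ c) (m : Multiplicative (ℤ × ℕ)) :
    A0 σ (bm c (D0 F σ) m) := by
  show A0 σ (((c ^ (2 * m.toAdd.1) : (H1 F)ˣ) : H1 F) * (D0 F σ) ^ m.toAdd.2)
  exact (hc.a0.zpow hc.a0' _).mul ((a0_D0 σ).pow _)

theorem Ph0_single (c : (H1 F)ˣ) (D : H1 F) (m : ℤ × ℕ) (γ : HK F) :
    Ph0 c D (AddMonoidAlgebra.single m γ) = inc (LZ F) γ * bm c D (Multiplicative.ofAdd m) := by
  unfold Ph0
  rw [AddMonoidAlgebra.liftNCRingHom_single]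

theorem bi_single {S : Type} [CommRing S] [Algebra F S] (c : Sˣ) (D : S) (m : ℤ × ℕ) (x : F) :
    bi c D (AddMonoidAlgebra.single m x) =
      algebraMap F S x * bm c D (Multiplicative.ofAdd m) := by
  unfold bi
  rw [AddMonoidAlgebra.liftNCRingHom_single]

theorem red_coeff (g : AddMonoidAlgebra (HK F) (ℤ × ℕ)) (b : ℝ) (m : ℤ × ℕ) :
    (red g b).coeff m = (g.coeff m).coeff b := by
  unfold red
  rw [AddMonoidAlgebra.coeff_ofCoeff, Finsupp.mapRange_apply]

theorem cf1_sum {κ : Type*} (s : Finset κ) (u : κ → H1 F) (a : ℝ) (i : ℤ) :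
    cf1 (∑ j ∈ s, u j) a i = ∑ j ∈ s, cf1 (u j) a i := by
  classical
  rw [← coeff_row, map_sum, HahnSeries.coeff_sum]
  rfl

theorem algebraMap_H1 (x : F) :
    algebraMap F (H1 F) x = HahnSeries.C (algebraMap F (LZ F) x) := by
  rw [HahnSeries.algebraMap_apply', PowerSeries.algebraMap_apply, HahnSeries.ofPowerSeries_C]

theorem cf1_algebraMap_mul (x : F) (r : H1 F) (a : ℝ) (i : ℤ) :
    cf1 (algebraMap F (H1 F) x * r) a i = x * cf1 r a i := by
  rw [algebraMap_H1, cf1, HahnSeries.C_apply, HahnSeries.coeff_single_zero_mul,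
    ← Algebra.smul_def]
  rfl

/-- the bounds for the terms -/
theorem bound0 {k : ℕ} {σ : ℝ} {c : (H1 F)ˣ} (hc : IsC k σ c)
    {g : AddMonoidAlgebra (HK F) (ℤ × ℕ)} {b : ℝ} (hb : ∀ m, Low (g.coeff m) b) {a : ℝ} {i : ℤ}
    (h : cf1 (Ph0 c (D0 F σ) g) a i ≠ 0) : b + σ * i ≤ a ∧ b - (1 - σ) * i ≤ a := by
  rw [lift_eq_sum (Ph0 c (D0 F σ)) g subset_rfl, cf1_sum] at h
  obtain ⟨m, _, h2⟩ := Finset.exists_ne_zero_of_sum_ne_zero h
  rw [Ph0_single, ← coeff_row, row_inc_mul] at h2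
  have h3 := low_row (a0_bm hc (Multiplicative.ofAdd m)) i
  constructor
  · by_contra h4
    exact h2 ((hb m).mul h3.1 a (not_le.1 h4))
  · by_contra h4
    refine h2 ((hb m).mul h3.2 a ?_)
    linarith [not_le.1 h4]

/-- the terms on the edges -/
theorem edge0 {k : ℕ} {σ : ℝ} {c : (H1 F)ˣ} (hc : IsC k σ c)
    {g : AddMonoidAlgebra (HK F) (ℤ × ℕ)} {b : ℝ} (hb : ∀ m, Low (g.coeff m) b) (i : ℤ) :
    cf1 (Ph0 c (D0 F σ) g) (b + σ * i) i = cf1 (bi c (D0 F σ) (red g b)) (σ * i) i ∧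
      cf1 (Ph0 c (D0 F σ) g) (b + (1 - σ) * i) (-i) =
        cf1 (bi c (D0 F σ) (red g b)) ((1 - σ) * i) (-i) := by
  have hs : (red g b).coeff.support ⊆ g.coeff.support := by
    intro m hm
    rw [Finsupp.mem_support_iff, red_coeff] at hm
    rw [Finsupp.mem_support_iff]
    intro h
    rw [h] at hm
    exact hm rfl
  rw [lift_eq_sum (Ph0 c (D0 F σ)) g subset_rfl, lift_eq_sum (bi c (D0 F σ)) (red g b) hs]
  simp only [cf1_sum]
  constructor
  · refine Finset.sum_congr rfl fun m _ => ?_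
    rw [Ph0_single, bi_single, cf1_algebraMap_mul, red_coeff, ← coeff_row, row_inc_mul,
      (hb m).coeff_mul (low_row (a0_bm hc (Multiplicative.ofAdd m)) i).1]
    rfl
  · refine Finset.sum_congr rfl fun m _ => ?_
    have h3 := (low_row (a0_bm hc (Multiplicative.ofAdd m)) (-i)).2
    have h4 : -((1 - σ) * ((-i : ℤ) : ℝ)) = (1 - σ) * i := by push_cast; ring
    rw [h4] at h3
    rw [Ph0_single, bi_single, cf1_algebraMap_mul, red_coeff, ← coeff_row, row_inc_mul,
      (hb m).coeff_mul h3]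
    rfl

/-- the unperturbed leading coefficient, from the two edges -/
theorem lead0_of {k : ℕ} {σ : ℝ} (h0 : 0 < σ)
    (h1 : σ < 1) {c : (H1 F)ˣ} (hc : IsC k σ c) {g : AddMonoidAlgebra (HK F) (ℤ × ℕ)} {b : ℝ}
    (hb : ∀ m, Low (g.coeff m) b) {P0 P1 : ℝ} {α β : ℕ} (hαβ : (α : ℝ) + β ≤ P1 - P0)
    (hα : cf1 (bi c (D0 F σ) (red g b)) (σ * α) α ≠ 0)
    (hβ : cf1 (bi c (D0 F σ) (red g b)) ((1 - σ) * β) (-(β : ℤ)) ≠ 0) :
    ∃ A : ℝ, A ≤ b + (P1 - P0) ∧ Low (Ph0 c (D0 F σ) g) A ∧ (Ph0 c (D0 F σ) g).coeff A ≠ 0 ∧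
      ∀ i : ℤ, cf1 (Ph0 c (D0 F σ) g) A i ≠ 0 → -(σ * (P1 - P0)) ≤ i ∧
        (i : ℝ) ≤ (1 - σ) * (P1 - P0) := by
  have eα := (edge0 hc hb (α : ℤ)).1
  have eβ := (edge0 hc hb (β : ℤ)).2
  rw [Int.cast_natCast] at eα eβ
  rw [← eα] at hα
  rw [← eβ] at hβ
  obtain ⟨x, hx⟩ : ∃ x, x = Ph0 c (D0 F σ) g := ⟨_, rfl⟩
  rw [← hx] at hα hβ ⊢
  have nα : x.coeff (b + σ * α) ≠ 0 := by
    intro h; apply hα; unfold cf1; rw [h]; rfl
  have nβ : x.coeff (b + (1 - σ) * β) ≠ 0 := by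
    intro h; apply hβ; unfold cf1; rw [h]; rfl
  have oα : x.order ≤ b + σ * α := HahnSeries.order_le_of_coeff_ne_zero nα
  have oβ : x.order ≤ b + (1 - σ) * β := HahnSeries.order_le_of_coeff_ne_zero nβ
  have hxne : x ≠ 0 := HahnSeries.ne_zero_of_coeff_ne_zero nα
  have pα : (0 : ℝ) ≤ α := Nat.cast_nonneg α
  have pβ : (0 : ℝ) ≤ β := Nat.cast_nonneg β
  refine ⟨x.order, ?_, low_order x, fun h => hxne (HahnSeries.coeff_order_eq_zero.1 h), ?_⟩
  · nlinarith
  · intro i hi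
    rw [hx] at hi
    obtain ⟨b1, b2⟩ := bound0 hc hb hi
    rw [← hx] at b1 b2
    have hL : 0 ≤ P1 - P0 := by linarith
    have hs : 0 < 1 - σ := by linarith
    constructor
    · -- lower bound
      rcases le_or_gt 0 (i : ℝ) with hi0 | hi0
      · have := mul_nonneg h0.le hL
        linarith
      · have e1 : -((1 - σ) * i) ≤ σ * α := by linarith
        have e2 : -((1 - σ) * i) ≤ (1 - σ) * β := by linarith
        have e3 : -(i : ℝ) ≤ β := by
          by_contra h5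
          push Not at h5
          nlinarith
        nlinarith
    · rcases le_or_gt (i : ℝ) 0 with hi0 | hi0
      · have := mul_nonneg hs.le hL
        linarith
      · have e1 : σ * i ≤ (1 - σ) * β := by linarith
        have e2 : σ * i ≤ σ * α := by linarith
        have e3 : (i : ℝ) ≤ α := by
          by_contra h5
          push Not at h5
          nlinarith
        nlinarith

end lead

end Pool.Agent.TH159.IA
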