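import Pool.Agent.TH159.IA.Hk

/-! The leading coefficient on the tube, with spectators. -/

set_option autoImplicit false

namespace Pool.Agent.TH159.IA

open Pool.Agent.TH396.IN

section leads
variable {F : Type} [Field F] {P : Type} [AddCommMonoid P]

/-- the leading coefficient of `x` has the exponent `j` in `Y` and the spectators, and exponents
between `l₀` and `l₁` in `X` -/
def LeadAt (x : H2 F P) (A : ℝ) (j : ℕ × P) (l₀ l₁ : ℝ) : Prop :=
  Low x A ∧ x.coeff A ≠ 0 ∧ ∀ m, (x.coeff A).coeff m ≠ 0 → m.2 = j ∧ l₀ ≤ m.1 ∧ (m.1 : ℝ) ≤ l₁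

theorem lead_Hk {σ s : ℝ} (h1 : σ < 1 / 2) (hs : 1 ≤ s) {H : H2 F P}
    (hH : H = HahnSeries.single (σ + s) (AddMonoidAlgebra.single (0, (1, 0)) 1) -
        HahnSeries.single (1 - σ + s) (AddMonoidAlgebra.single (-2, (1, 0)) 1) +
        HahnSeries.single (2 * s) (AddMonoidAlgebra.single (-2, (2, 0)) 1)) :
    Low H (σ + s) ∧ H.coeff (σ + s) = AddMonoidAlgebra.single (0, (1, 0)) 1 := by
  subst hH
  constructor
  · refine ((low_single _ _).sub ((low_single _ _).mono ?_)).add ((low_single _ _).mono ?_)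
    · linarith
    · linarith
  · rw [HahnSeries.coeff_add, HahnSeries.coeff_sub, HahnSeries.coeff_single_same,
      HahnSeries.coeff_single_of_ne (by linarith : σ + s ≠ 1 - σ + s),
      HahnSeries.coeff_single_of_ne (by linarith : σ + s ≠ 2 * s), sub_zero, add_zero]

theorem single_pow_Y (e : ℕ) :
    (AddMonoidAlgebra.single ((0 : ℤ), ((1 : ℕ), (0 : P))) (1 : F) : LP F (ℕ × P)) ^ e =
      AddMonoidAlgebra.single (0, (e, 0)) 1 := by
  rw [AddMonoidAlgebra.single_pow, one_pow]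
  congr 1
  ext <;> simp

/-- multiplication by a power of `Y` and a spectator -/
theorem LeadAt.mul_pow {x H : H2 F P} {A b l₀ l₁ : ℝ} (hx : LeadAt x A 0 l₀ l₁) (hH : Low H b)
    (hH2 : H.coeff b = AddMonoidAlgebra.single (0, (1, 0)) 1) (e : ℕ) (p : P) :
    LeadAt (x * H ^ e * sp F p) (A + e * b) (e, p) l₀ l₁ := by
  classical
  obtain ⟨h1, h2, h3⟩ := hx
  obtain ⟨h4, h5⟩ := hH.pow e
  rw [hH2, single_pow_Y] at h5
  have h6 : Low (sp F p) 0 := low_single _ _
  have h6' : (sp F p).coeff 0 = AddMonoidAlgebra.single (0, (0, p)) 1 :=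
    HahnSeries.coeff_single_same _ _
  have h7 := h1.mul h4
  have h8 := h7.mul h6
  have h9 : (x * H ^ e * sp F p).coeff (A + e * b) =
      x.coeff A * AddMonoidAlgebra.single (0, (e, p)) 1 := by
    have := h7.coeff_mul h6
    rw [add_zero] at this
    rw [this, h1.coeff_mul h4, h5, h6', mul_assoc, AddMonoidAlgebra.single_mul_single, mul_one]
    congr 2
    rw [Prod.mk_add_mk, Prod.mk_add_mk, zero_add, add_zero, zero_add]
  rw [add_zero] at h8
  -- the coefficient of the product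
  have h10 : ∀ m : ℤ × (ℕ × P), (x.coeff A * AddMonoidAlgebra.single (0, (e, p)) 1).coeff m ≠ 0 →
      m.2 = (e, p) ∧ (x.coeff A).coeff (m.1, 0) ≠ 0 := by
    intro m hm
    rw [AddMonoidAlgebra.coeff_mul] at hm
    obtain ⟨m₁, hm₁, hm2⟩ := Finset.exists_ne_zero_of_sum_ne_zero hm
    obtain ⟨m₂, hm₂, hm3⟩ := Finset.exists_ne_zero_of_sum_ne_zero hm2
    have hm4 : m₁ + m₂ = m := by
      by_contra hcon
      exact hm3 (if_neg hcon)
    have hm5 : m₂ = (0, (e, p)) := by
      rw [Finsupp.mem_support_iff, AddMonoidAlgebra.coeff_single, Finsupp.single_apply] at hm₂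
      by_contra hcon
      exact hm₂ (if_neg (fun h => hcon h.symm))
    obtain ⟨g1, _, _⟩ := h3 m₁ (Finsupp.mem_support_iff.1 hm₁)
    subst hm5
    rw [← hm4]
    refine ⟨?_, ?_⟩
    · rw [Prod.snd_add, g1, zero_add]
    · rw [Prod.fst_add, add_zero]
      have : m₁ = (m₁.1, 0) := by
        rw [← g1]
      rw [← this]
      exact Finsupp.mem_support_iff.1 hm₁
  refine ⟨h8, ?_, ?_⟩
  · rw [h9]
    intro h
    apply h2
    -- specialise the exponents
    obtain ⟨y, hy⟩ : ∃ y, y = x.coeff A := ⟨_, rfl⟩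
    rw [← hy] at h h3 ⊢
    have hy2 : ∀ i : ℤ, y.coeff (i, 0) = 0 := by
      intro i
      have h11 : (y * AddMonoidAlgebra.single (0, (e, p)) 1).coeff (i, (e, p)) = 0 := by
        rw [h]; rfl
      rw [AddMonoidAlgebra.coeff_mul, Finsupp.sum] at h11
      have h12 : ∀ m₁ ∈ y.coeff.support,
          ((AddMonoidAlgebra.single ((0 : ℤ), (e, p)) (1 : F)).coeff.sum fun m₂ r₂ =>
            if m₁ + m₂ = (i, (e, p)) then y.coeff m₁ * r₂ else 0) =
            if m₁ = (i, 0) then y.coeff (i, 0) else 0 := by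
        intro m₁ hm₁
        rw [AddMonoidAlgebra.coeff_single, Finsupp.sum_single_index (by simp)]
        obtain ⟨g1, _, _⟩ := h3 m₁ (Finsupp.mem_support_iff.1 hm₁)
        have h13 : (m₁ + (0, (e, p)) = (i, (e, p))) ↔ m₁ = (i, 0) := by
          constructor
          · intro h14
            have h15 := congrArg Prod.fst h14
            rw [Prod.fst_add, add_zero] at h15
            exact Prod.ext h15 g1
          · rintro rfl
            rw [Prod.mk_add_mk, add_zero, zero_add]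
        by_cases h14 : m₁ = (i, 0)
        · rw [if_pos (h13.2 h14), if_pos h14, mul_one, h14]
        · rw [if_neg (fun h15 => h14 (h13.1 h15)), if_neg h14]
      rw [Finset.sum_congr rfl h12, Finset.sum_ite_eq'] at h11
      by_cases h14 : (i, (0 : ℕ × P)) ∈ y.coeff.support
      · rwa [if_pos h14] at h11
      · exact Finsupp.notMem_support_iff.1 h14
    apply AddMonoidAlgebra.coeff_injective
    ext m
    by_contra hm
    have g1 := (h3 m hm).1
    have : m = (m.1, 0) := by rw [← g1]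
    rw [this] at hm
    exact hm (hy2 m.1)
  · intro m hm
    rw [h9] at hm
    obtain ⟨g1, g2⟩ := h10 m hm
    obtain ⟨_, g3, g4⟩ := h3 _ g2
    exact ⟨g1, g3, g4⟩

/-- leading coefficients with different exponents do not cancel -/
theorem lead_sum {J : Finset (ℕ × P)} (hJ : J.Nonempty) {x : ℕ × P → H2 F P} {A : ℕ × P → ℝ}
    {l₀ l₁ : ℕ × P → ℝ} (h : ∀ j ∈ J, LeadAt (x j) (A j) j (l₀ j) (l₁ j)) :
    ∃ a : ℝ, (∑ j ∈ J, x j).coeff a ≠ 0 ∧ ∀ m, ((∑ j ∈ J, x j).coeff a).coeff m ≠ 0 →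
      m.2 ∈ J ∧ l₀ m.2 ≤ m.1 ∧ (m.1 : ℝ) ≤ l₁ m.2 := by
  classical
  obtain ⟨j₀, hj₀, hmin⟩ := Finset.exists_min_image J A hJ
  have hcf : ∀ m, ((∑ j ∈ J, x j).coeff (A j₀)).coeff m =
      ∑ j ∈ J, ((x j).coeff (A j₀)).coeff m := by
    intro m
    rw [HahnSeries.coeff_sum, AddMonoidAlgebra.coeff_sum, Finsupp.finsetSum_apply]
  have hone : ∀ j ∈ J, ∀ m, ((x j).coeff (A j₀)).coeff m ≠ 0 →
      m.2 = j ∧ l₀ j ≤ m.1 ∧ (m.1 : ℝ) ≤ l₁ j := by
    intro j hj m hm
    obtain ⟨e1, _, e3⟩ := h j hj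
    rcases lt_or_eq_of_le (hmin j hj) with h' | h'
    · exfalso
      apply hm
      rw [e1 _ h']
      rfl
    · rw [h'] at hm
      exact e3 m hm
  refine ⟨A j₀, ?_, ?_⟩
  · intro h0
    obtain ⟨_, e2, _⟩ := h j₀ hj₀
    apply e2
    apply AddMonoidAlgebra.coeff_injective
    ext m
    by_contra hm
    have hk := (hone j₀ hj₀ m hm).1
    have h3 := hcf m
    rw [h0, Finset.sum_eq_single j₀] at h3
    · exact hm h3.symm
    · intro j hj hjne
      by_contra h4
      have h5 := (hone j hj m h4).1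
      rw [hk] at h5
      exact hjne h5.symm
    · intro h4
      exact absurd hj₀ h4
  · intro m hm
    rw [hcf] at hm
    obtain ⟨j, hj, hj2⟩ := Finset.exists_ne_zero_of_sum_ne_zero hm
    obtain ⟨e1, e2, e3⟩ := hone j hj m hj2
    rw [e1]
    exact ⟨hj, e2, e3⟩

end leads

end Pool.Agent.TH159.IA
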