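import Pool.Agent.TH159.IA.Lead0
import Pool.Agent.TH159.IA.Defs2

/-! The perturbed tube with spectators. -/

set_option autoImplicit false

namespace Pool.Agent.TH159.IA

open Pool.Agent.TH396.IN

section hmap
variable {A B : Type} [CommRing A] [CommRing B]

/-- the coefficientwise extension of a ring homomorphism -/
noncomputable def hmap (f : A →+* B) : HahnSeries ℝ A →+* HahnSeries ℝ B where
  toFun x := x.map f
  map_one' := by
    ext a
    simp only [HahnSeries.map_coeff, HahnSeries.coeff_one]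
    split_ifs <;> simp
  map_mul' x y := HahnSeries.map_mul (f : A →ₙ+* B)
  map_zero' := by ext; simp
  map_add' x y := by ext; simp

theorem hmap_coeff (f : A →+* B) (x : HahnSeries ℝ A) (a : ℝ) :
    (hmap f x).coeff a = f (x.coeff a) := rfl

theorem hmap_single (f : A →+* B) (a : ℝ) (x : A) :
    hmap f (HahnSeries.single a x) = HahnSeries.single a (f x) := by
  classical
  ext b
  rw [hmap_coeff, HahnSeries.coeff_single, HahnSeries.coeff_single]
  split_ifs <;> simp

theorem Low.hmap {x : HahnSeries ℝ A} {a : ℝ} (hx : Low x a) (f : A →+* B) :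
    Low (hmap f x) a := by
  intro c hc
  rw [hmap_coeff, hx c hc, map_zero]

end hmap

section spec
variable (F : Type) [Field F] (P : Type) [AddCommMonoid P]

/-- Laurent polynomials in `X` among all polynomials -/
noncomputable def jR : LZ F →+* LP F (ℕ × P) :=
  AddMonoidAlgebra.mapDomainRingHom F (AddMonoidHom.inl ℤ (ℕ × P))

/-- coefficientwise -/
noncomputable def jj : H1 F →+* H2 F P := hmap (jR F P)

/-- the perturbation `t ^ s X⁻¹ Y` -/
noncomputable def dl (s : ℝ) : H2 F P :=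
  HahnSeries.single s (AddMonoidAlgebra.single (-1, (1, 0)) 1)

/-- the image of `Z` -/
noncomputable def DD (σ s : ℝ) : H2 F P := jj F P (D0 F σ) + dl F P s

variable {F P}

theorem jR_single (i : ℤ) (x : F) :
    jR F P (AddMonoidAlgebra.single i x) = AddMonoidAlgebra.single (i, 0) x := by
  unfold jR
  rw [AddMonoidAlgebra.mapDomainRingHom_apply, AddMonoidAlgebra.mapDomain_single]
  rfl

theorem jR_coeff (x : LZ F) (m : ℤ × (ℕ × P)) (h : (jR F P x).coeff m ≠ 0) :
    m.2 = 0 ∧ x.coeff m.1 ≠ 0 := by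
  classical
  unfold jR at h
  rw [AddMonoidAlgebra.mapDomainRingHom_apply] at h
  have h1 : m ∈ (AddMonoidAlgebra.mapDomain (AddMonoidHom.inl ℤ (ℕ × P)) x).coeff.support :=
    Finsupp.mem_support_iff.2 h
  rw [AddMonoidAlgebra.coeff_mapDomain] at h1
  have h2 := Finsupp.mapDomain_support h1
  rw [Finset.mem_image] at h2
  obtain ⟨i, hi, rfl⟩ := h2
  exact ⟨rfl, Finsupp.mem_support_iff.1 hi⟩

theorem jR_injective : Function.Injective (jR F P) := by
  intro x y h
  unfold jR at h
  rw [AddMonoidAlgebra.mapDomainRingHom_apply, AddMonoidAlgebra.mapDomainRingHom_apply] at h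
  refine AddMonoidAlgebra.mapDomain_injective ?_ h
  intro a b hab
  exact congrArg Prod.fst hab

/-- the spectator -/
noncomputable def sp (F : Type) [Field F] {P : Type} [AddCommMonoid P] (p : P) : H2 F P :=
  HahnSeries.single 0 (AddMonoidAlgebra.single (0, (0, p)) 1)

theorem sp_zero : sp F (0 : P) = 1 := rfl

theorem sp_add (p p' : P) : sp F (p + p') = sp F p * sp F p' := by
  unfold sp
  rw [HahnSeries.single_mul_single, AddMonoidAlgebra.single_mul_single, add_zero, one_mul]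
  rfl

/-- the images of the monomials -/
noncomputable def bm2 (c : (H2 F P)ˣ) (D : H2 F P) :
    Multiplicative (ℤ × (ℕ × P)) →* H2 F P where
  toFun m := ((c ^ (2 * m.toAdd.1) : (H2 F P)ˣ) : H2 F P) * D ^ m.toAdd.2.1 * sp F m.toAdd.2.2
  map_one' := by
    rw [toAdd_one, Prod.fst_zero, Prod.snd_zero, Prod.fst_zero, Prod.snd_zero, mul_zero, zpow_zero,
      Units.val_one, pow_zero, sp_zero, mul_one, mul_one]
  map_mul' m m' := by
    rw [toAdd_mul, Prod.fst_add, Prod.snd_add, Prod.fst_add, Prod.snd_add, mul_add, zpow_add,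
      Units.val_mul, pow_add, sp_add]
    ring

/-- the tube -/
noncomputable def Ph (c : (H2 F P)ˣ) (D : H2 F P) : LP (HK F) (ℕ × P) →+* H2 F P :=
  AddMonoidAlgebra.liftNCRingHom (inc (LP F (ℕ × P))) (bm2 c D) (fun _ _ => Commute.all _ _)

theorem Ph_single (c : (H2 F P)ˣ) (D : H2 F P) (a : ℤ) (n : ℕ) (p : P) (γ : HK F) :
    Ph c D (AddMonoidAlgebra.single (a, (n, p)) γ) = inc (LP F (ℕ × P)) γ *
      (((c ^ (2 * a) : (H2 F P)ˣ) : H2 F P) * D ^ n * sp F p) := by
  unfold Ph
  rw [AddMonoidAlgebra.liftNCRingHom_single]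
  rfl

theorem jj_inc (γ : HK F) : jj F P (inc (LZ F) γ) = inc (LP F (ℕ × P)) γ := by
  apply HahnSeries.ext
  funext a
  unfold jj
  rw [hmap_coeff, inc_coeff, inc_coeff]
  show jR F P (AddMonoidAlgebra.single 0 _) = _
  rw [jR_single]
  rfl

/-- the unperturbed evaluation, after the embedding -/
theorem jj_Ph0_single (c : (H1 F)ˣ) (D : H1 F) (m : ℤ × ℕ) (γ : HK F) :
    jj F P (Ph0 c D (AddMonoidAlgebra.single m γ)) = inc (LP F (ℕ × P)) γ *
      ((((Units.map (jj F P : H1 F →* H2 F P) c) ^ (2 * m.1) : (H2 F P)ˣ) : H2 F P) *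
        (jj F P D) ^ m.2) := by
  rw [Ph0_single, map_mul, jj_inc]
  congr 1
  show jj F P (((c ^ (2 * m.1) : (H1 F)ˣ) : H1 F) * D ^ m.2) = _
  rw [map_mul, map_pow, ← map_zpow]
  rfl

theorem low_inc {B : Type} [CommRing B] [Algebra F B] {γ : HK F} {b : ℝ} (h : Low γ b) :
    Low (inc B γ) b := by
  intro a ha
  rw [inc_coeff, h a ha, map_zero]

theorem low_pow_sub {D δ : H2 F P} {s : ℝ} (hD : Low D 0) (hδ : Low δ s) (hs : 0 ≤ s) (n : ℕ) :
    Low ((D + δ) ^ n - D ^ n) s := by
  induction n with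
  | zero =>
    rw [pow_zero, pow_zero, sub_self]
    exact low_zero s
  | succ n ih =>
    have h : (D + δ) ^ (n + 1) - D ^ (n + 1) =
        (D + δ) ^ n * δ + ((D + δ) ^ n - D ^ n) * D := by ring
    rw [h]
    have h1 : Low ((D + δ) ^ n) 0 := by
      have := ((hD.add (hδ.mono hs)).pow n).1
      rwa [mul_zero] at this
    have h2 := h1.mul hδ
    have h3 := ih.mul hD
    rw [zero_add] at h2
    rw [add_zero] at h3
    exact h2.add h3

/-- the difference to the unperturbed tube -/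
theorem low_diff {k : ℕ} {σ s : ℝ} (h0 : 0 < σ) (h1 : σ < 1) (hs : 0 ≤ s) {c : (H1 F)ˣ}
    (hc : IsC k σ c) {g : AddMonoidAlgebra (HK F) (ℤ × ℕ)} {b : ℝ}
    (hb : ∀ m, Low (g.coeff m) b) :
    Low (Ph (Units.map (jj F P : H1 F →* H2 F P) c) (DD F P σ s) (emb (HK F) P g) -
      jj F P (Ph0 c (D0 F σ) g)) (b + s) := by
  rw [← RingHom.comp_apply, ← RingHom.comp_apply, lift_eq_sum _ g subset_rfl,
    lift_eq_sum ((jj F P).comp (Ph0 c (D0 F σ))) g subset_rfl, ← Finset.sum_sub_distrib]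
  refine Low.sum fun m _ => ?_
  rw [RingHom.comp_apply, RingHom.comp_apply, jj_Ph0_single]
  have e : emb (HK F) P (AddMonoidAlgebra.single m (g.coeff m)) =
      AddMonoidAlgebra.single (m.1, (m.2, 0)) (g.coeff m) := emb_single _ _ _ _ _
  rw [e, Ph_single, sp_zero, mul_one, ← mul_sub, ← mul_sub]
  refine (low_inc (hb m)).mul ?_
  have h2 : Low ((((Units.map (jj F P : H1 F →* H2 F P) c) ^ (2 * m.1) : (H2 F P)ˣ) : H2 F P)) 0 := by
    have h3 : ((((Units.map (jj F P : H1 F →* H2 F P) c) ^ (2 * m.1) : (H2 F P)ˣ) : H2 F P)) =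
        jj F P ((c ^ (2 * m.1) : (H1 F)ˣ) : H1 F) := by
      rw [← map_zpow]
      rfl
    rw [h3]
    exact ((hc.a0.zpow hc.a0' _).nonneg h0 h1).hmap _
  have h4 : Low (jj F P (D0 F σ)) 0 := ((a0_D0 σ).nonneg h0 h1).hmap _
  have h5 := h2.mul (low_pow_sub h4 (low_single s _ : Low (dl F P s) s) hs m.2)
  rw [zero_add] at h5
  exact h5

end spec

end Pool.Agent.TH159.IA
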